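import Mathlib

/-!
Represented spaces, Weihrauch reductions and the problems of MP_88baa4_lc.
-/

namespace Pool.Agent.Lib.MP_88baa4_lc

/-- The word of the first `n` entries of a point of Baire space. -/
def pre (p : ℕ → ℕ) (n : ℕ) : List ℕ := List.ofFn (fun i : Fin n => p i)

/-- The word function `φ` maps the input `p` to the output `q`: every word `φ (pre p n)` is an
initial word of `q`, and these words get arbitrarily long. -/
def Computes (φ : List ℕ → List ℕ) (p q : ℕ → ℕ) : Prop :=
  (∀ n, φ (pre p n) = pre q (φ (pre p n)).length) ∧ ∀ m, ∃ n, m ≤ (φ (pre p n)).length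

/-- The interleaving `p 0, q 0, p 1, q 1, ...` of two points of Baire space. -/
def interleave (p q : ℕ → ℕ) : ℕ → ℕ := fun j => if j % 2 = 0 then p (j / 2) else q (j / 2)

/-- A representation of `X`, as the relation: `p` is a name of `x`. -/
abbrev Rep (X : Type) : Type := (ℕ → ℕ) → X → Prop

/-- A natural number is named by any point starting with it. -/
def repNat : Rep ℕ := fun p n => p 0 = n

/-- A bit is named by any point starting with it. -/
def repBool : Rep Bool := fun p b => p 0 = b.toNat

/-- A point of Baire space is its own name. -/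
def repBaire : Rep (ℕ → ℕ) := fun p x => p = x

/-- Names of pairs: the even and the odd entries name the two components. -/
def repProd {X Y : Type} (a : Rep X) (b : Rep Y) : Rep (X × Y) :=
  fun p z => a (fun i => p (2 * i)) z.1 ∧ b (fun i => p (2 * i + 1)) z.2

/-- Names of sequences: the `i`-th column names the `i`-th term. -/
def repSeq {X : Type} (a : Rep X) : Rep (ℕ → X) :=
  fun p x => ∀ i, a (fun j => p (Nat.pair i j)) (x i)

/-- Negative representation of the closed subsets of Baire space: the entry `code u + 1` lists the
basic open set of all points starting with the word `u` (the entry `0` lists nothing), and `p`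
names the complement of the union of the basic open sets that it lists. -/
def repClosed : Rep (Set (ℕ → ℕ)) := fun p A =>
  A = {x | ∀ u : List ℕ, (∃ i, p i = Encodable.encode u + 1) → pre x u.length ≠ u}

/-- The word functions `φ` and `ψ` reduce the problem `f` to the problem `g`. A problem is a
set-valued map, and its instances are the points with a nonempty set of solutions. -/
def Reduces {X Y Z W : Type} (dX : Rep X) (dY : Rep Y) (f : X → Set Y)
    (dZ : Rep Z) (dW : Rep W) (g : Z → Set W) (φ ψ : List ℕ → List ℕ) : Prop :=
  ∀ p x, dX p x → (f x).Nonempty →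
    ∃ p' z, Computes φ p p' ∧ dZ p' z ∧ (g z).Nonempty ∧
      ∀ q w, dW q w → w ∈ g z → ∃ r y, Computes ψ (interleave p q) r ∧ dY r y ∧ y ∈ f x

/-- Closed choice on Baire space: any point of the set. -/
def choiceBaire (A : Set (ℕ → ℕ)) : Set (ℕ → ℕ) := A

/-- The scattered part of a set. -/
def scattered (A : Set (ℕ → ℕ)) : Set (ℕ → ℕ) := A \ CantorBendixson.perfectKernel A

/-- Lists of the scattered part. -/
def wScList (A : Set (ℕ → ℕ)) : Set (ℕ → Bool × (ℕ → ℕ)) :=
  {l | scattered A = {x | ∃ i, (l i).1 = true ∧ (l i).2 = x}}

open Classical in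
/-- The cardinality code of the scattered part. -/
noncomputable def scCount (A : Set (ℕ → ℕ)) : ℕ :=
  if (scattered A).Infinite then 0 else (scattered A).ncard + 1

/-- A list of the scattered part together with its cardinality code. -/
def scList (A : Set (ℕ → ℕ)) : Set ((ℕ → Bool × (ℕ → ℕ)) × ℕ) :=
  {w | w.1 ∈ wScList A ∧ w.2 = scCount A}

/-- The perfect kernel together with a list and the cardinality code of the scattered part. -/
def cantorBendixson (A : Set (ℕ → ℕ)) :
    Set (Set (ℕ → ℕ) × ((ℕ → Bool × (ℕ → ℕ)) × ℕ)) :=
  {w | w.1 = CantorBendixson.perfectKernel A ∧ w.2 ∈ scList A}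

/-- Names of the solutions of `scList`. -/
def repScList : Rep ((ℕ → Bool × (ℕ → ℕ)) × ℕ) :=
  repProd (repSeq (repProd repBool repBaire)) repNat

end Pool.Agent.Lib.MP_88baa4_lc
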