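import Pool.Agent.Lib.MP_88baa4_lc.Main

/-!
Countably many word functions, chosen after the input and after the solution, do not even compute
an upper bound of a point of a nonempty closed set from a solution of the Cantor-Bendixson problem.
-/

namespace Pool.Agent.Lib.MP_88baa4_lc

open MeasureTheory Set Topology

theorem getD_of_isPrefix {α : Type} (d : α) {a b : List α} (h : a <+: b) {l : ℕ}
    (hl : l < a.length) : a.getD l d = b.getD l d := by
  obtain ⟨t, rfl⟩ := h
  simp [List.getD_eq_getElem?_getD, List.getElem?_append_left hl]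

theorem exists_limit_gen {α : Type} (d : α) (c : ℕ → List α) (h1 : ∀ n, c n <+: c (n + 1))
    (h2 : ∀ n, n ≤ (c n).length) :
    ∃ g : ℕ → α, ∀ n, ∀ l < (c n).length, g l = (c n).getD l d := by
  have mono : ∀ m n, m ≤ n → c m <+: c n := by
    intro m n h
    induction h with
    | refl => exact List.prefix_rfl
    | step _ ih => exact ih.trans (h1 _)
  refine ⟨fun l => (c (l + 1)).getD l d, fun n l hl => ?_⟩
  rcases le_total n (l + 1) with h | h
  · exact (getD_of_isPrefix d (mono _ _ h) hl).symm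
  · exact getD_of_isPrefix d (mono _ _ h) (h2 (l + 1))

/-- All items of the word have a point attached. -/
def GoodW (E : List ℕ → Prop) (σ : List Item) : Prop :=
  ∀ l < σ.length, ∃ X, PtOf E (σ.getD l (none, none)) X

theorem ptOf_none (E : List ℕ → Prop) : PtOf E (none, none) 0 :=
  ⟨fun s hs => by simp at hs, fun _ => rfl, fun s hs => by simp at hs⟩

theorem GoodW.concat {E : List ℕ → Prop} {σ : List Item} (h : GoodW E σ) {c : Item}
    (hc : ∃ X, PtOf E c X) : GoodW E (σ ++ [c]) := by
  intro l hl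
  rcases lt_or_ge l σ.length with h' | h'
  · rw [← getD_of_isPrefix _ (List.prefix_append σ [c]) h']
    exact h l h'
  · have : l = σ.length := by
      simp only [List.length_append, List.length_singleton] at hl
      omega
    subst this
    simpa [List.getD_eq_getElem?_getD] using hc

/-- The category argument on the full lists of items. -/
theorem baire_full {E : List ℕ → Prop} (W : ℕ → (ℕ → Item) → (ℕ → ℕ → ℕ) → Prop)
    (h : ∀ g X, Full E g X → ∃ j, W j g X) :
    ∃ j σ0, GoodW E σ0 ∧ ∀ σ, σ0 <+: σ → GoodW E σ → ∃ g X, Full E g X ∧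
      (∀ l < σ.length, g l = σ.getD l (none, none)) ∧ W j g X := by
  classical
  by_contra hn
  have hk : ∀ j σ0, GoodW E σ0 → ∃ σ, σ0 <+: σ ∧ GoodW E σ ∧ ∀ g X, Full E g X →
      (∀ l < σ.length, g l = σ.getD l (none, none)) → ¬ W j g X := by
    intro j σ0 h0
    by_contra h'
    refine hn ⟨j, σ0, h0, fun σ h1 h2 => ?_⟩
    by_contra h''
    exact h' ⟨σ, h1, h2, fun g X a b c => h'' ⟨g, X, a, b, c⟩⟩
  choose! K hK1 hK2 hK3 using hk
  let dec : ℕ → Item := fun m => (Encodable.decode (α := Item) m).getD (none, none)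
  let item : ℕ → Item := fun m => if ∃ X, PtOf E (dec m) X then dec m else (none, none)
  have hitem : ∀ m, ∃ X, PtOf E (item m) X := by
    intro m
    simp only [item]
    split_ifs with h1
    · exact h1
    · exact ⟨0, ptOf_none E⟩
  let s : ℕ → List Item := fun n => Nat.rec [] (fun m σ => K m σ ++ [item m]) n
  have hs : ∀ n, s (n + 1) = K n (s n) ++ [item n] := fun _ => rfl
  have hgood : ∀ n, GoodW E (s n) := by
    intro n
    induction n with
    | zero => intro l hl; simp [s] at hl
    | succ n ih => rw [hs]; exact (hK2 n _ ih).concat (hitem n)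
  have hpre : ∀ n, s n <+: s (n + 1) := fun n => by
    rw [hs]
    exact (hK1 n _ (hgood n)).trans (List.prefix_append _ _)
  have hlen : ∀ n, n ≤ (s n).length := by
    intro n
    induction n with
    | zero => exact Nat.zero_le _
    | succ n ih =>
      have := (hK1 n _ (hgood n)).length_le
      rw [hs, List.length_append, List.length_singleton]
      omega
  obtain ⟨g, hg⟩ := exists_limit_gen (none, none) s hpre hlen
  have hgv : ∀ l, ∃ X, PtOf E (g l) X := fun l => by
    rw [hg (l + 1) l (hlen (l + 1))]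
    exact hgood (l + 1) l (hlen (l + 1))
  have hsurj : ∀ c : Item, (∃ X, PtOf E c X) → ∃ l, g l = c := by
    intro c hc
    have hd : dec (Encodable.encode c) = c := by
      simp only [dec, Encodable.encodek, Option.getD_some]
    have hi : item (Encodable.encode c) = c := by
      simp only [item]
      rw [hd, if_pos hc]
    refine ⟨(K (Encodable.encode c) (s (Encodable.encode c))).length, ?_⟩
    rw [hg (Encodable.encode c + 1) _ (by rw [hs]; simp), hs, hi]
    simp [List.getD_eq_getElem?_getD]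
  choose X hX using hgv
  have hfull : Full E g X := by
    refine ⟨hX, fun t ht => ?_, fun t x ht => ?_⟩
    · obtain ⟨l, hl⟩ := hsurj (some t, none) ⟨0, fun r hr => by
        obtain rfl : t = r := by simpa using hr
        exact ht, fun _ => rfl, fun r hr => by simp at hr⟩
      exact ⟨l, by rw [hl]⟩
    · obtain ⟨l, hl⟩ := hsurj (none, some t) ⟨x, fun r hr => by simp at hr,
        fun hr => by simp at hr, fun r hr => by
        obtain rfl : t = r := by simpa using hr
        exact ht⟩
      exact ⟨l, by rw [hl]⟩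
  obtain ⟨j, hj⟩ := h g X hfull
  refine hK3 j (s j) (hgood j) g X hfull (fun l hl => ?_) hj
  have hp : K j (s j) <+: s (j + 1) := by
    rw [hs]
    exact List.prefix_append _ _
  rw [hg (j + 1) l (lt_of_lt_of_le hl hp.length_le), getD_of_isPrefix _ hp hl]

/-- The compactness argument: arbitrarily long words of the tree below a function give a branch. -/
theorem body_nonempty_of_bound {E : List ℕ → Prop} (h : ℕ → ℕ)
    (hb : ∀ n, ∃ t : List ℕ, n ≤ t.length ∧ (∀ m < t.length, t.getD m 0 ≤ h m) ∧ tree E t) :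
    (body E).Nonempty := by
  let K : ℕ → Set (ℕ → ℕ) := fun n => (univ.pi fun m => Iic (h m)) ∩ {x | tree E (pre x n)}
  have hc : IsCompact (univ.pi fun m => Iic (h m)) :=
    isCompact_univ_pi fun m => (Set.finite_Iic (h m)).isCompact
  have hcl : ∀ n, IsClosed {x : ℕ → ℕ | tree E (pre x n)} := fun n => by
    classical
    have : {x : ℕ → ℕ | tree E (pre x n)} =
        (fun x => decide (tree E (pre x n))) ⁻¹' {true} := by
      ext x
      simp
    rw [this]
    exact (isClosed_discrete _).preimage (continuous_comp_pre (fun w => decide (tree E w)) n)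
  obtain ⟨x, hx⟩ := IsCompact.nonempty_iInter_of_sequence_nonempty_isCompact_isClosed K
    (fun n x hx => ⟨hx.1, tree_of_isPrefix (pre_isPrefix x (Nat.le_succ n)) hx.2⟩)
    (fun n => by
      obtain ⟨t, h1, h2, h3⟩ := hb n
      refine ⟨fun m => t.getD m 0, fun m _ => ?_, tree_of_isPrefix ?_ h3⟩
      · rcases lt_or_ge m t.length with hm | hm
        · exact h2 m hm
        · simp [List.getD_eq_getElem?_getD, List.getElem?_eq_none hm]
      · conv_rhs => rw [← pre_getD t]
        exact pre_isPrefix _ h1)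
    (hc.inter_right (hcl 0)) (fun n => hc.isClosed.inter (hcl n))
  exact ⟨x, mem_body_iff.2 fun n => (mem_iInter.1 hx n).2⟩

theorem key2 (φ ψ : ℕ → List ℕ → List ℕ) (ι κ : ℕ → ℕ) (hι : ∀ j, ι j ≤ j)
    (H : ℕ → ℕ → Item → ℕ → ℕ)
    (hyp : ∀ p, (named p).Nonempty → ∃ i k, ∀ g X, Full (listed (φ i) p) g X →
      ∃ j y, Computes (ψ j) (interleave p (fun l => H k l (g (ι l)) (X (ι l) (κ l)))) y ∧
        ∃ x ∈ named p, ∀ n, x n ≤ y n) :
    False := by
  classical
  let El : (ℕ → ℕ) → List ℕ → Prop := fun p u => ∃ i, p i = Encodable.encode u + 1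
  have hEl : ∀ u, Measurable (fun p => El p u) := fun u =>
    Measurable.exists fun i => by
      exact measurableSet_setOfPred.1 ((measurable_pi_apply i) (measurableSet_singleton _))
  let it : List Item → ℕ → Item := fun σ i => σ.getD i (none, none)
  let Good : (ℕ → ℕ) → ℕ → List Item → Prop := fun p a σ =>
    ∀ i, i < σ.length → ∃ m, ∃ X, PtOf (listed (φ a) p) (it σ i) X ∧ X 0 = m
  have hGood : ∀ p a σ, Good p a σ ↔ GoodW (listed (φ a) p) σ := fun p a σ =>
    ⟨fun h i hi => (h i hi).elim fun _ ⟨X, hX, _⟩ => ⟨X, hX⟩,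
      fun h i hi => (h i hi).elim fun X hX => ⟨_, X, hX, rfl⟩⟩
  let Val : (ℕ → ℕ) → ℕ → ℕ → List Item → List ℕ → Prop := fun p a k σ w =>
    ∀ j, j < σ.length → ∃ m, w.getD j 0 = H k j (it σ (ι j)) m ∧
      ∃ X, PtOf (listed (φ a) p) (it σ (ι j)) X ∧ X (κ j) = m
  let Out : (ℕ → ℕ) → ℕ → ℕ → List ℕ → List ℕ := fun p b n w =>
    ψ b (pre (interleave (fun j => (pre p n).getD j 0) (fun j => w.getD j 0)) n)
  let Bd : (ℕ → ℕ) → List ℕ → Prop := fun p u =>
    ∃ t : List ℕ, (t.length = u.length ∧ ∀ m < t.length, t.getD m 0 ≤ u.getD m 0) ∧ tree (El p) t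
  let R : (ℕ → ℕ) → (ℕ × ℕ × ℕ) × List Item × List ℕ → (ℕ × ℕ × ℕ) × List Item × List ℕ → Prop :=
    fun p d e =>
    (e.1 = d.1 ∧ d.2.1 <+: e.2.1 ∧ d.2.2 <+: e.2.2 ∧ d.2.2.length < e.2.2.length) ∧
      Bd p e.2.2 ∧ Good p e.1.1 e.2.1 ∧
      ∃ w, Val p e.1.1 e.1.2.1 e.2.1 w ∧ Out p e.1.2.2 e.2.1.length w = e.2.2
  have hR : ∀ d e, Coan (fun p => R p d e) := by
    intro d e
    refine (Coan.const _).and (Coan.and ?_ (Coan.and ?_ ?_))
    · exact Coan.exists fun t => (Coan.const _).and (Coan.of_measurable (measurable_tree hEl _))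
    · exact Coan.forall fun i => Coan.imp_const _
        (Coan.exists fun m => coan_ptOf (measurable_listed (φ _)) _ _ _)
    · refine Coan.exists fun w => Coan.and ?_ (Coan.of_measurable ?_)
      · exact Coan.forall fun j => Coan.imp_const _
          (Coan.exists fun m => (Coan.const _).and (coan_ptOf (measurable_listed (φ _)) _ _ _))
      · exact measurable_comp_pre (fun v => ψ e.1.2.2 (pre (interleave (fun j => v.getD j 0)
          (fun j => w.getD j 0)) e.2.1.length) = e.2.2) _
  obtain ⟨P, hP, hP1, hP2⟩ := coan_dc hR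
  refine not_coan_nonempty (hP.congr fun p => ⟨fun h => ?_, fun h => ?_⟩)
  · obtain ⟨c, hc⟩ := hP1 p h
    obtain ⟨x, hx⟩ := exists_limit_of_lt (fun n => (c n).2.2) (fun n => (hc n).1.2.2.1)
      (fun n => (hc n).1.2.2.2)
    refine body_nonempty_of_bound (E := El p) x fun n => ?_
    obtain ⟨t, ⟨h1, h2⟩, h3⟩ := (hc n).2.1
    refine ⟨t, ?_, fun m hm => (h2 m hm).trans ?_, h3⟩
    · rw [h1]
      exact (Nat.le_succ n).trans (hx (n + 1)).1
    · rw [← (hx (n + 1)).2, getD_pre (h1 ▸ hm)]
  · obtain ⟨a, k, hk⟩ := hyp p h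
    obtain ⟨b, σ0, hσ0, hk⟩ := baire_full (fun j g X => ∃ y,
      Computes (ψ j) (interleave p (fun l => H k l (g (ι l)) (X (ι l) (κ l)))) y ∧
        ∃ x ∈ named p, ∀ n, x n ≤ y n) hk
    have hout : ∀ (g : ℕ → Item) X (σ : List Item) w, Full (listed (φ a) p) g X →
        (∀ i < σ.length, g i = it σ i) → Val p a k σ w →
        Out p b σ.length w =
          ψ b (pre (interleave p (fun j => H k j (g (ι j)) (X (ι j) (κ j)))) σ.length) := by
      intro g X σ w hg hσ hw
      simp only [Out]
      congr 1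
      refine pre_pair_congr le_rfl (pre_eq_iff.2 fun i hi => getD_pre hi)
        (pre_eq_iff.2 fun j hj => ?_)
      obtain ⟨m, h1, Y, h2, h3⟩ := hw j hj
      rw [← hσ _ (lt_of_le_of_lt (hι j) hj)] at h1 h2
      rw [h1, ← h3, h2.unique (hg.1 _)]
    refine hP2 p {d | d.1 = (a, k, b) ∧ σ0 <+: d.2.1 ∧ Good p a d.2.1 ∧
      ∀ g X y, Full (listed (φ a) p) g X →
      (∀ i < d.2.1.length, g i = it d.2.1 i) →
      Computes (ψ b) (interleave p (fun j => H k j (g (ι j)) (X (ι j) (κ j)))) y →
      pre y d.2.2.length = d.2.2} ⟨((a, k, b), σ0, []), rfl, List.prefix_rfl,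
        (hGood p a σ0).2 hσ0, fun _ _ _ _ _ _ => by simp [pre]⟩ ?_ ?_
    · rintro ⟨k', σ, u⟩ ⟨rfl, hpre, hgood, hu⟩
      obtain ⟨g, X, hg, hσ, y, hy, x, hx, hxy⟩ := hk σ hpre ((hGood p a σ).1 hgood)
      have huy := hu g X y hg hσ hy
      dsimp only at huy hσ hy
      set q := interleave p (fun j => H k j (g (ι j)) (X (ι j) (κ j))) with hq
      obtain ⟨n, hn1, hn2⟩ : ∃ n, σ.length ≤ n ∧ u.length < (ψ b (pre q n)).length := by
        obtain ⟨n, hn⟩ := hy.2
          ((Finset.range σ.length).sup (fun i => (ψ b (pre q i)).length) + u.length + 1)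
        refine ⟨n, ?_, by omega⟩
        by_contra hlt
        have := Finset.le_sup (f := fun i => (ψ b (pre q i)).length)
          (Finset.mem_range.2 (not_le.1 hlt))
        omega
      let σ' : List Item := List.ofFn (fun i : Fin n => g i)
      have hlen : σ'.length = n := by simp [σ']
      have hσ' : ∀ i < σ'.length, g i = it σ' i := by
        intro i hi
        rw [hlen] at hi
        simp [it, σ', List.getD_eq_getElem?_getD, List.getElem?_ofFn, hi]
      have hval : Val p a k σ' (pre (fun j => H k j (g (ι j)) (X (ι j) (κ j))) n) := by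
        intro j hj
        rw [← hσ' _ (lt_of_le_of_lt (hι j) hj)]
        exact ⟨_, getD_pre (hlen ▸ hj), _, hg.1 _, rfl⟩
      refine ⟨((a, k, b), σ', ψ b (pre q n)), ⟨rfl, ?_, ?_, hn2⟩, ?_, ?_, _, hval, ?_⟩
      · rw [List.prefix_iff_eq_take]
        apply List.ext_getElem?
        intro i
        by_cases hi : i < σ.length
        · have h1 := hσ i hi
          have h2 : i < n := by omega
          simp only [List.getD_eq_getElem?_getD, List.getElem?_eq_getElem hi,
            Option.getD_some] at h1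
          simp [List.getElem?_take, hi, σ', List.getElem?_ofFn, h2, h1]
        · simp [List.getElem?_take, hi]
      · dsimp only
        rw [hy.1 n]
        exact isPrefix_pre_of_eq huy hn2.le
      · dsimp only
        refine ⟨pre x (ψ b (pre q n)).length, ⟨length_pre _ _, fun m hm => ?_⟩,
          (mem_body_iff (E := El p)).1 hx _⟩
        rw [length_pre] at hm
        rw [getD_pre hm, hy.1 n, getD_pre hm]
        exact hxy m
      · intro i hi
        rw [← hσ' i hi]
        exact ⟨_, _, hg.1 i, rfl⟩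
      · dsimp only
        rw [hout g X σ' _ hg hσ' hval, hlen]
    · rintro ⟨k', σ, u⟩ ⟨rfl, hpre, -, -⟩ ⟨k'', σ', u'⟩ ⟨⟨rfl, hp, -⟩, -, hgood, w, hw, hu⟩
      refine ⟨rfl, hpre.trans hp, hgood, fun g X y hg hσ hy => ?_⟩
      dsimp only at hu hw hσ ⊢
      rw [hout g X σ' w hg hσ hw] at hu
      rw [← hu]
      exact (hy.1 _).symm

theorem not_bound_cb (φ ψ : ℕ → List ℕ → List ℕ) :
    ¬ ∀ p A, repClosed p A → A.Nonempty →
      ∃ i p' B, Computes (φ i) p p' ∧ repClosed p' B ∧
        ∀ q w, repProd repClosed repScList q w → w ∈ cantorBendixson B →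
          ∃ j h, Computes (ψ j) (interleave p q) h ∧ ∃ x ∈ A, ∀ n, x n ≤ h n := by
  intro h
  refine key2 φ ψ (fun j => if j % 2 = 0 then j / 2 else (Nat.unpair (j / 2 / 2)).1)
    (fun j => (Nat.unpair (j / 2 / 2)).2 / 2) (fun j => ?_)
    (fun k j c m => if j % 2 = 0 then Encodable.encode c.1 else entSc k (j / 2) c m)
    fun p hp => ?_
  · split_ifs
    · exact Nat.div_le_self _ _
    · exact (unpair_half_le _).trans (Nat.div_le_self _ _)
  obtain ⟨i, p', A, hφ, hA, hψ⟩ := h p (named p) rfl hp
  obtain rfl : A = body (listed (φ i) p) := hA.trans (named_eq_body hφ)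
  refine ⟨i, scCount (body (listed (φ i) p)), fun g X hg => ?_⟩
  refine hψ _ (CantorBendixson.perfectKernel (body (listed (φ i) p)),
    (fun l => ((g l).2.isSome, X l), scCount (body (listed (φ i) p)))) ⟨?_, ?_⟩
    ⟨rfl, (solution_scList hg).2⟩
  · convert solution_kernel hg using 2 with l
    simp
  · convert (solution_scList hg).1 using 2 with l
    have h1 : (2 * l + 1) % 2 = 1 := by omega
    have h2 : (2 * l + 1) / 2 = l := by omega
    simp [h1, h2]

end Pool.Agent.Lib.MP_88baa4_lc
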