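import Pool.Agent.Lib.MP_88baa4_lc.Unif

/-!
The Cantor-Bendixson analysis of a closed subset of Baire space as an inductive definition on words.
-/

namespace Pool.Agent.Lib.MP_88baa4_lc

open MeasureTheory Set Topology

/-- The points with no initial word in `E`. -/
def body (E : List ℕ → Prop) : Set (ℕ → ℕ) := {x | ∀ u, E u → pre x u.length ≠ u}

/-- The words with no initial word in `E`. -/
def tree (E : List ℕ → Prop) (s : List ℕ) : Prop := ∀ u, E u → ¬ u <+: s

/-- The derivative on words. -/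
def cbOp (E : List ℕ → Prop) (Y : List ℕ → Prop) (s : List ℕ) : Prop :=
  ¬ tree E s ∨ ∀ t t', s <+: t → s <+: t' → ¬ t <+: t' → ¬ t' <+: t → Y t ∨ Y t'

variable {E : List ℕ → Prop}

theorem cbOp_mono (E : List ℕ → Prop) : Monotone (cbOp E) := by
  intro Y Y' hY s hs
  exact hs.imp id fun h t t' h1 h2 h3 h4 => (h t t' h1 h2 h3 h4).imp (hY _) (hY _)

theorem tree_of_isPrefix {s t : List ℕ} (hst : s <+: t) (h : tree E t) : tree E s :=
  fun u hu hus => h u hu (hus.trans hst)

theorem mem_body_iff {x : ℕ → ℕ} : x ∈ body E ↔ ∀ n, tree E (pre x n) := by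
  constructor
  · intro hx n u hu hun
    exact hx u hu (eq_pre_of_isPrefix hun)
  · intro hx u hu h
    exact hx u.length u hu (by rw [h])

theorem isClosed_body : IsClosed (body E) := by
  have : body E = ⋂ u, ⋂ _ : E u, {x | pre x u.length = u}ᶜ := by
    ext x; simp [body]
  rw [this]
  exact isClosed_iInter fun u => isClosed_iInter fun _ => (isOpen_compl_iff.1 (by
    rw [compl_compl]; exact isOpen_cyl u)) |> fun h => h

theorem cbOp_ext {Y : List ℕ → Prop} {s t : List ℕ} (hst : s <+: t) (h : cbOp E Y s) :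
    cbOp E Y t := by
  rcases h with h | h
  · exact Or.inl fun ht => h (tree_of_isPrefix hst ht)
  · exact Or.inr fun a b h1 h2 => h a b (hst.trans h1) (hst.trans h2)

theorem stage_ext {a : Ordinal.{0}} {s t : List ℕ} (hst : s <+: t) (h : stage (cbOp E) a s) :
    stage (cbOp E) a t := by
  rw [stage_eq] at h ⊢
  exact cbOp_ext hst h

theorem ind_ext {s t : List ℕ} (hst : s <+: t) (h : ind (cbOp E) s) : ind (cbOp E) t :=
  h.imp fun _ => stage_ext hst

theorem split_of_not_ind {s : List ℕ} (h : ¬ ind (cbOp E) s) :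
    tree E s ∧ ∃ t t', s <+: t ∧ s <+: t' ∧ ¬ t <+: t' ∧ ¬ t' <+: t ∧
      ¬ ind (cbOp E) t ∧ ¬ ind (cbOp E) t' := by
  have : ¬ cbOp E (ind (cbOp E)) s := fun h' => h (ind_closed (cbOp_mono E) h')
  simp only [cbOp, not_or, not_not, not_forall] at this
  obtain ⟨h1, t, t', a, b, c, d, e⟩ := this
  exact ⟨h1, t, t', a, b, c, d, e⟩

theorem exists_branch {s : List ℕ} (h : ¬ ind (cbOp E) s) :
    ∃ x ∈ body (ind (cbOp E)), pre x s.length = s := by
  have step : ∀ s, ¬ ind (cbOp E) s →
      ∃ t, s <+: t ∧ s.length < t.length ∧ ¬ ind (cbOp E) t := by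
    intro s hs
    obtain ⟨-, t, t', a, b, c, -, e, -⟩ := split_of_not_ind hs
    refine ⟨t, a, lt_of_le_of_ne a.length_le fun hl => c ?_, e⟩
    rw [← a.eq_of_length hl]
    exact b
  choose! f hf1 hf2 hf3 using step
  have hall : ∀ n, ¬ ind (cbOp E) (f^[n] s) := by
    intro n
    induction n with
    | zero => exact h
    | succ n ih => rw [Function.iterate_succ_apply']; exact hf3 _ ih
  obtain ⟨x, hx⟩ := exists_limit_of_lt (fun n => f^[n] s)
    (fun n => by simp only [Function.iterate_succ_apply']; exact hf1 _ (hall n))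
    (fun n => by simp only [Function.iterate_succ_apply']; exact hf2 _ (hall n))
  refine ⟨x, fun u hu hux => hall u.length (ind_ext ?_ hu), (hx 0).2⟩
  rw [← (hx u.length).2]
  exact isPrefix_pre_of_eq hux (hx u.length).1

theorem comparable_of_pre {x : ℕ → ℕ} {t t' : List ℕ} (h : pre x t.length = t)
    (h' : pre x t'.length = t') : t <+: t' ∨ t' <+: t := by
  rcases le_total t.length t'.length with hl | hl
  · left; rw [← h']; exact isPrefix_pre_of_eq h hl
  · right; rw [← h]; exact isPrefix_pre_of_eq h' hl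

theorem ker_subset : body (ind (cbOp E)) ⊆ body E := by
  intro x hx
  rw [mem_body_iff]
  intro n
  exact (split_of_not_ind fun h => hx _ h (by simp)).1

theorem perfect_ker : Perfect (body (ind (cbOp E))) := by
  refine ⟨isClosed_body, preperfect_iff_nhds.2 fun x hx U hU => ?_⟩
  obtain ⟨V, hVU, hV, hxV⟩ := mem_nhds_iff.1 hU
  obtain ⟨n, hn⟩ := exists_cyl_subset hV hxV
  obtain ⟨-, t, t', a, b, c, d, e, e'⟩ :=
    split_of_not_ind (E := E) (s := pre x n) fun h => hx _ h (by simp)
  obtain ⟨y, hy, hyt⟩ := exists_branch e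
  obtain ⟨y', hy', hyt'⟩ := exists_branch e'
  have hyU : y ∈ U := hVU (hn y (by simpa using pre_of_isPrefix a hyt))
  have hyU' : y' ∈ U := hVU (hn y' (by simpa using pre_of_isPrefix b hyt'))
  by_cases hyx : y = x
  · refine ⟨y', ⟨hyU', hy'⟩, fun h => ?_⟩
    rw [hyx] at hyt
    rw [h] at hyt'
    exact (comparable_of_pre hyt hyt').elim c d
  · exact ⟨y, ⟨hyU, hy⟩, hyx⟩

theorem exists_incomparable {x y : ℕ → ℕ} (h : y ≠ x) (m : ℕ) :
    ∃ n, m ≤ n ∧ ¬ pre x n <+: pre y n ∧ ¬ pre y n <+: pre x n := by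
  obtain ⟨i, hi⟩ := Function.ne_iff.1 h
  have : pre x (m + i + 1) ≠ pre y (m + i + 1) := fun h' =>
    hi (pre_eq_iff.1 h' i (by omega)).symm
  exact ⟨m + i + 1, by omega, fun h' => this (h'.eq_of_length (by simp)),
    fun h' => this (h'.eq_of_length (by simp)).symm⟩

theorem preperfect_subset_ker {P : Set (ℕ → ℕ)} (hP : Preperfect P) (hPE : P ⊆ body E) :
    P ⊆ body (ind (cbOp E)) := by
  intro x hx u hu
  refine ind_induction (P := fun s => ∀ x ∈ P, pre x s.length ≠ s) ?_ (cbOp_mono E) hu x hx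
  intro s hs x hx hxs
  rcases hs with hs | hs
  · exact hs (by rw [← hxs]; exact mem_body_iff.1 (hPE hx) _)
  · obtain ⟨y, ⟨hys, hy⟩, hne⟩ := preperfect_iff_nhds.1 hP x hx _
      ((isOpen_cyl s).mem_nhds hxs)
    obtain ⟨n, hn, h1, h2⟩ := exists_incomparable hne s.length
    rcases hs _ _ (isPrefix_pre_of_eq hxs hn) (isPrefix_pre_of_eq hys hn) h1 h2 with h | h
    · exact h x hx (by simp)
    · exact h y hy (by simp)

theorem perfectKernel_body :
    CantorBendixson.perfectKernel (body E) = body (ind (cbOp E)) :=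
  subset_antisymm
    (preperfect_subset_ker (CantorBendixson.perfect_perfectKernel isClosed_body).acc
      (CantorBendixson.perfectKernel_subset _))
    (perfect_ker.subset_perfectKernel ker_subset)

/-- The word `s` is a code of the point `x` of the scattered part. -/
def Pt (E : List ℕ → Prop) (s : List ℕ) (x : ℕ → ℕ) : Prop :=
  x ∈ body E ∧ pre x s.length = s ∧ ∀ n, s.length ≤ n → sle (cbOp E) s (pre x n)

theorem Pt.ind {s : List ℕ} {x : ℕ → ℕ} (h : Pt E s x) : ind (cbOp E) s :=
  (h.2.2 _ le_rfl).ind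

theorem scattered_body : scattered (body E) = {x | ∃ s, Pt E s x} := by
  ext x
  simp only [scattered, perfectKernel_body, mem_diff, mem_ofPred_eq]
  constructor
  · rintro ⟨hx, hk⟩
    have : ∃ n ∈ (univ : Set ℕ), ind (cbOp E) (pre x n) := by
      by_contra hn
      exact hk fun u hu hux => hn ⟨u.length, trivial, by rwa [hux]⟩
    obtain ⟨n, -, hn⟩ := exists_sle_min (cbOp_mono E) (pre x) univ this
    exact ⟨pre x n, hx, by simp, fun m _ => hn m trivial⟩
  · rintro ⟨s, hs⟩
    exact ⟨hs.1, fun hk => hk s hs.ind hs.2.1⟩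

theorem chain_of_sle {s t t' : List ℕ} (hs : tree E s) (h1 : s <+: t) (h2 : s <+: t')
    (h3 : sle (cbOp E) s t) (h4 : sle (cbOp E) s t') : t <+: t' ∨ t' <+: t := by
  by_contra hn
  rw [not_or] at hn
  obtain ⟨a, ha, hmin⟩ := exists_min_stage h3.ind
  have key : ∀ r, sle (cbOp E) s r → ∀ b, b < a → ¬ stage (cbOp E) b r := by
    rintro r ⟨c, hc, hcr⟩ b hb
    refine hcr b ?_
    by_contra hcb
    exact hmin c (lt_of_le_of_lt (not_lt.1 hcb) hb) hc
  rw [stage_eq] at ha
  rcases ha with ha | ha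
  · exact ha hs
  · rcases ha t t' h1 h2 hn.1 hn.2 with ⟨b, hb, h⟩ | ⟨b, hb, h⟩
    · exact key t h3 b hb h
    · exact key t' h4 b hb h

theorem Pt.pre_eq {s t : List ℕ} {x : ℕ → ℕ} (h : Pt E s x) (h1 : s <+: t)
    (h2 : sle (cbOp E) s t) : pre x t.length = t := by
  have hs : tree E s := by rw [← h.2.1]; exact mem_body_iff.1 h.1 _
  rcases chain_of_sle hs h1 (isPrefix_pre_of_eq h.2.1 h1.length_le) h2
    (h.2.2 _ h1.length_le) with h' | h'
  · exact (h'.eq_of_length (by simp)).symm
  · exact h'.eq_of_length (by simp)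

theorem Pt.unique {s : List ℕ} {x y : ℕ → ℕ} (h : Pt E s x) (h' : Pt E s y) : x = y := by
  ext i
  have hl : s.length ≤ s.length + i + 1 := by omega
  have := h.pre_eq (isPrefix_pre_of_eq h'.2.1 hl) (h'.2.2 _ hl)
  rw [length_pre] at this
  exact pre_eq_iff.1 this i (by omega)

theorem exists_pt_iff {s : List ℕ} : (∃ x, Pt E s x) ↔
    ∀ n, ∃ t : List ℕ, n ≤ t.length ∧ s <+: t ∧ tree E t ∧ sle (cbOp E) s t := by
  constructor
  · rintro ⟨x, hx⟩ n
    have hl : s.length ≤ s.length + n := by omega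
    exact ⟨pre x (s.length + n), by simp, isPrefix_pre_of_eq hx.2.1 hl, mem_body_iff.1 hx.1 _,
      hx.2.2 _ hl⟩
  · intro h
    choose t h1 h2 h3 h4 using h
    have hs : tree E s := tree_of_isPrefix (h2 0) (h3 0)
    let N : ℕ → ℕ := fun n => Nat.rec 0 (fun _ m => (t m).length + 1) n
    have hlt : ∀ n, (t (N n)).length < (t (N (n + 1))).length := fun n => h1 _
    obtain ⟨x, hx⟩ := exists_limit_of_lt (fun n => t (N n)) (fun n => by
      rcases chain_of_sle hs (h2 (N n)) (h2 (N (n + 1))) (h4 _) (h4 _) with h | h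
      · exact h
      · exact absurd h.length_le (not_le.2 (hlt n))) hlt
    have hp : ∀ n, pre x n <+: t (N n) := fun n => by
      rw [← (hx n).2]; exact pre_isPrefix x (hx n).1
    refine ⟨x, mem_body_iff.2 fun n => tree_of_isPrefix (hp n) (h3 _),
      pre_of_isPrefix (h2 _) (hx 0).2, fun n _ => ?_⟩
    obtain ⟨a, ha, hb⟩ := h4 (N n)
    exact ⟨a, ha, fun b hba hst => hb b hba (stage_ext (hp n) hst)⟩

theorem exists_pt_val_iff {s : List ℕ} {n m : ℕ} : (∃ x, Pt E s x ∧ x n = m) ↔
    (∃ x, Pt E s x) ∧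
      ∃ t : List ℕ, (s <+: t ∧ n < t.length ∧ t.getD n 0 = m) ∧ sle (cbOp E) s t := by
  constructor
  · rintro ⟨x, hx, hm⟩
    have hl : s.length ≤ s.length + n + 1 := by omega
    exact ⟨⟨x, hx⟩, pre x (s.length + n + 1), ⟨isPrefix_pre_of_eq hx.2.1 hl,
      by rw [length_pre]; omega,
      by rw [getD_pre (by omega), hm]⟩, hx.2.2 _ hl⟩
  · rintro ⟨⟨x, hx⟩, t, ⟨h1, h2, h3⟩, h4⟩
    refine ⟨x, hx, ?_⟩
    rw [← h3, ← hx.pre_eq h1 h4, getD_pre h2]

section Coan

variable {F : (ℕ → ℕ) → List ℕ → Prop}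

theorem measurable_tree (hF : ∀ u, Measurable (fun p => F p u)) (s : List ℕ) :
    Measurable (fun p => tree (F p) s) :=
  Measurable.forall fun u => (hF u).imp measurable_const

theorem measurable_cbOp (hF : ∀ u, Measurable (fun p => F p u)) (s : List ℕ) :
    Measurable (fun z : (ℕ → ℕ) × (List ℕ → Prop) => cbOp (F z.1) z.2 s) := by
  refine Measurable.or ((measurable_tree hF s).comp measurable_fst).not ?_
  refine Measurable.forall fun t => Measurable.forall fun t' => measurable_const.imp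
    (measurable_const.imp (measurable_const.imp (measurable_const.imp (Measurable.or ?_ ?_))))
  · fun_prop
  · fun_prop

theorem coan_cb_ind (hF : ∀ u, Measurable (fun p => F p u)) (s : List ℕ) :
    Coan (fun p => ind (cbOp (F p)) s) :=
  coan_ind (G := fun p => cbOp (F p)) (fun _ => cbOp_mono _) (measurable_cbOp hF) s

theorem coan_cb_sle (hF : ∀ u, Measurable (fun p => F p u)) (s t : List ℕ) :
    Coan (fun p => sle (cbOp (F p)) s t) :=
  coan_sle (G := fun p => cbOp (F p)) (fun _ => cbOp_mono _) (measurable_cbOp hF) s t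

theorem coan_valid (hF : ∀ u, Measurable (fun p => F p u)) (s : List ℕ) :
    Coan (fun p => ∃ x, Pt (F p) s x) :=
  (Coan.forall fun _ => Coan.exists fun t => (Coan.const _).and ((Coan.const _).and
    ((Coan.of_measurable (measurable_tree hF t)).and (coan_cb_sle hF s t)))).congr
    fun _ => exists_pt_iff.symm

theorem coan_val (hF : ∀ u, Measurable (fun p => F p u)) (s : List ℕ) (n m : ℕ) :
    Coan (fun p => ∃ x, Pt (F p) s x ∧ x n = m) :=
  ((coan_valid hF s).and (Coan.exists fun t => (Coan.const _).and (coan_cb_sle hF s t))).congr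
    fun _ => exists_pt_val_iff.symm

end Coan

end Pool.Agent.Lib.MP_88baa4_lc
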