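import Pool.Agent.Lib.MP_88baa4_lc.Kernel

/-!
No pair of word functions reduces closed choice on Baire space to the Cantor-Bendixson problem.
-/

namespace Pool.Agent.Lib.MP_88baa4_lc

open MeasureTheory Set Topology

/-- An item: possibly a word off the kernel, and possibly a code of a scattered point. -/
abbrev Item : Type := Option (List ℕ) × Option (List ℕ)

/-- `X` is the point attached to the item. -/
def PtOf (E : List ℕ → Prop) (c : Item) (X : ℕ → ℕ) : Prop :=
  (∀ s, c.1 = some s → ind (cbOp E) s) ∧ (c.2 = none → X = 0) ∧ ∀ s, c.2 = some s → Pt E s X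

theorem PtOf.unique {E : List ℕ → Prop} {c : Item} {X Y : ℕ → ℕ} (h : PtOf E c X)
    (h' : PtOf E c Y) : X = Y := by
  obtain ⟨a, _ | s⟩ := c
  · rw [h.2.1 rfl, h'.2.1 rfl]
  · exact (h.2.2 s rfl).unique (h'.2.2 s rfl)

theorem coan_ptOf {F : (ℕ → ℕ) → List ℕ → Prop} (hF : ∀ u, Measurable (fun p => F p u))
    (c : Item) (n m : ℕ) : Coan (fun p => ∃ X, PtOf (F p) c X ∧ X n = m) := by
  have h1 : Coan (fun p => ∀ s, c.1 = some s → ind (cbOp (F p)) s) :=
    Coan.forall fun s => (coan_cb_ind hF s).imp_const _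
  obtain ⟨a, _ | s⟩ := c
  · refine (h1.and (Coan.const (0 = m))).congr fun p => ?_
    constructor
    · rintro ⟨h, rfl⟩
      exact ⟨0, ⟨h, fun _ => rfl, fun s hs => by simp at hs⟩, rfl⟩
    · rintro ⟨X, h, rfl⟩
      exact ⟨h.1, by rw [h.2.1 rfl]; rfl⟩
  · refine (h1.and (coan_val hF s n m)).congr fun p => ?_
    constructor
    · rintro ⟨h, X, hX, rfl⟩
      refine ⟨X, ⟨h, fun hs => by simp at hs, fun t ht => ?_⟩, rfl⟩
      obtain rfl : s = t := by simpa using ht
      exact hX
    · rintro ⟨X, h, rfl⟩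
      exact ⟨h.1, X, h.2.2 s rfl, rfl⟩

/-- The sequence of items lists all words off the kernel and all codes of scattered points. -/
def Full (E : List ℕ → Prop) (g : ℕ → Item) (X : ℕ → ℕ → ℕ) : Prop :=
  (∀ i, PtOf E (g i) (X i)) ∧ (∀ s, ind (cbOp E) s → ∃ i, (g i).1 = some s) ∧
    ∀ s x, Pt E s x → ∃ i, (g i).2 = some s

theorem exists_full {E : List ℕ → Prop} (n : ℕ) (σ : ℕ → Item)
    (hσ : ∀ i < n, ∃ X, PtOf E (σ i) X) :
    ∃ g X, Full E g X ∧ ∀ i < n, g i = σ i := by
  classical
  let dec : ℕ → Item := fun m => (Encodable.decode (α := Item) m).getD (none, none)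
  let g : ℕ → Item := fun i => if i < n then σ i else
    if ∃ X, PtOf E (dec (i - n)) X then dec (i - n) else (none, none)
  have hg : ∀ i, ∃ X, PtOf E (g i) X := by
    intro i
    simp only [g]
    split_ifs with h1 h2
    · exact hσ i h1
    · exact h2
    · exact ⟨0, fun s hs => by simp at hs, fun _ => rfl, fun s hs => by simp at hs⟩
  have hsurj : ∀ c : Item, (∃ X, PtOf E c X) → ∃ i, g i = c := by
    intro c hc
    refine ⟨n + Encodable.encode c, ?_⟩
    have hd : dec (n + Encodable.encode c - n) = c := by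
      simp only [dec, Nat.add_sub_cancel_left, Encodable.encodek, Option.getD_some]
    simp only [g]
    rw [if_neg (by omega), hd, if_pos hc]
  choose X hX using hg
  refine ⟨g, X, ⟨hX, fun s hs => ?_, fun s x hs => ?_⟩, fun i hi => by simp only [g, if_pos hi]⟩
  · obtain ⟨i, hi⟩ := hsurj (some s, none) ⟨0, fun t ht => by
      obtain rfl : s = t := by simpa using ht
      exact hs, fun _ => rfl, fun t ht => by simp at ht⟩
    exact ⟨i, by rw [hi]⟩
  · obtain ⟨i, hi⟩ := hsurj (none, some s) ⟨x, fun t ht => by simp at ht,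
      fun ht => by simp at ht, fun t ht => by
      obtain rfl : s = t := by simpa using ht
      exact hs⟩
    exact ⟨i, by rw [hi]⟩

/-- The words listed by the output of `φ` on `p`. -/
def listed (φ : List ℕ → List ℕ) (p : ℕ → ℕ) (u : List ℕ) : Prop :=
  ∃ n, Encodable.encode u + 1 ∈ φ (pre p n)

theorem measurable_listed (φ : List ℕ → List ℕ) (u : List ℕ) :
    Measurable (fun p => listed φ p u) :=
  Measurable.exists fun n => measurable_comp_pre (fun w => Encodable.encode u + 1 ∈ φ w) n

theorem mem_pre_iff {q : ℕ → ℕ} {n v : ℕ} : v ∈ pre q n ↔ ∃ i < n, q i = v := by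
  simp only [pre, List.mem_ofFn]
  exact ⟨fun ⟨i, hi⟩ => ⟨i, i.2, hi⟩, fun ⟨i, h, hi⟩ => ⟨⟨i, h⟩, hi⟩⟩

theorem named_eq_body {φ : List ℕ → List ℕ} {p p' : ℕ → ℕ} (h : Computes φ p p') :
    named p' = body (listed φ p) := by
  have : ∀ u, (∃ i, p' i = Encodable.encode u + 1) ↔ listed φ p u := by
    intro u
    constructor
    · rintro ⟨i, hi⟩
      obtain ⟨n, hn⟩ := h.2 (i + 1)
      refine ⟨n, ?_⟩
      rw [h.1 n, mem_pre_iff]
      exact ⟨i, hn, hi⟩
    · rintro ⟨n, hn⟩
      rw [h.1 n, mem_pre_iff] at hn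
      obtain ⟨i, -, hi⟩ := hn
      exact ⟨i, hi⟩
  simp only [named, body, this]

theorem key (φ ψ : List ℕ → List ℕ) (ι κ : ℕ → ℕ) (hι : ∀ j, ι j ≤ j)
    (H : ℕ → ℕ → Item → ℕ → ℕ)
    (hyp : ∀ p, (named p).Nonempty → ∃ k, ∀ g X, Full (listed φ p) g X →
      ∃ y, Computes ψ (interleave p (fun j => H k j (g (ι j)) (X (ι j) (κ j)))) y ∧ y ∈ named p) :
    False := by
  classical
  let El : (ℕ → ℕ) → List ℕ → Prop := fun p u => ∃ i, p i = Encodable.encode u + 1
  have hEl : ∀ u, Measurable (fun p => El p u) := fun u =>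
    Measurable.exists fun i => by
      exact measurableSet_setOfPred.1 ((measurable_pi_apply i) (measurableSet_singleton _))
  let it : List Item → ℕ → Item := fun σ i => σ.getD i (none, none)
  let Good : (ℕ → ℕ) → List Item → Prop := fun p σ =>
    ∀ i, i < σ.length → ∃ m, ∃ X, PtOf (listed φ p) (it σ i) X ∧ X 0 = m
  let Val : (ℕ → ℕ) → ℕ → List Item → List ℕ → Prop := fun p k σ w =>
    ∀ j, j < σ.length → ∃ m, w.getD j 0 = H k j (it σ (ι j)) m ∧
      ∃ X, PtOf (listed φ p) (it σ (ι j)) X ∧ X (κ j) = m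
  let Out : (ℕ → ℕ) → ℕ → List ℕ → List ℕ := fun p n w =>
    ψ (pre (interleave (fun j => (pre p n).getD j 0) (fun j => w.getD j 0)) n)
  let R : (ℕ → ℕ) → ℕ × List Item × List ℕ → ℕ × List Item × List ℕ → Prop := fun p d e =>
    (e.1 = d.1 ∧ d.2.1 <+: e.2.1 ∧ d.2.2 <+: e.2.2 ∧ d.2.2.length < e.2.2.length) ∧
      tree (El p) e.2.2 ∧ Good p e.2.1 ∧
      ∃ w, Val p e.1 e.2.1 w ∧ Out p e.2.1.length w = e.2.2
  have hR : ∀ d e, Coan (fun p => R p d e) := by
    intro d e
    refine (Coan.const _).and ((Coan.of_measurable (measurable_tree hEl _)).and (Coan.and ?_ ?_))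
    · exact Coan.forall fun i => Coan.imp_const _
        (Coan.exists fun m => coan_ptOf (measurable_listed φ) _ _ _)
    · refine Coan.exists fun w => Coan.and ?_ (Coan.of_measurable ?_)
      · exact Coan.forall fun j => Coan.imp_const _
          (Coan.exists fun m => (Coan.const _).and (coan_ptOf (measurable_listed φ) _ _ _))
      · exact measurable_comp_pre (fun v => ψ (pre (interleave (fun j => v.getD j 0)
          (fun j => w.getD j 0)) e.2.1.length) = e.2.2) _
  obtain ⟨P, hP, hP1, hP2⟩ := coan_dc hR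
  refine not_coan_nonempty (hP.congr fun p => ⟨fun h => ?_, fun h => ?_⟩)
  · obtain ⟨c, hc⟩ := hP1 p h
    obtain ⟨x, hx⟩ := exists_limit_of_lt (fun n => (c n).2.2) (fun n => (hc n).1.2.2.1)
      (fun n => (hc n).1.2.2.2)
    refine ⟨x, (mem_body_iff (E := El p)).2 fun n => tree_of_isPrefix ?_ (hc n).2.1⟩
    rw [← (hx (n + 1)).2]
    exact pre_isPrefix x ((Nat.le_succ n).trans (hx (n + 1)).1)
  · obtain ⟨k, hk⟩ := hyp p h
    have hout : ∀ (g : ℕ → Item) X (σ : List Item) w, Full (listed φ p) g X →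
        (∀ i < σ.length, g i = it σ i) → Val p k σ w →
        Out p σ.length w =
          ψ (pre (interleave p (fun j => H k j (g (ι j)) (X (ι j) (κ j)))) σ.length) := by
      intro g X σ w hg hσ hw
      simp only [Out]
      congr 1
      refine pre_pair_congr le_rfl (pre_eq_iff.2 fun i hi => getD_pre hi)
        (pre_eq_iff.2 fun j hj => ?_)
      obtain ⟨m, h1, Y, h2, h3⟩ := hw j hj
      rw [← hσ _ (lt_of_le_of_lt (hι j) hj)] at h1 h2
      rw [h1, ← h3, h2.unique (hg.1 _)]
    refine hP2 p {d | d.1 = k ∧ Good p d.2.1 ∧ ∀ g X y, Full (listed φ p) g X →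
      (∀ i < d.2.1.length, g i = it d.2.1 i) →
      Computes ψ (interleave p (fun j => H k j (g (ι j)) (X (ι j) (κ j)))) y →
      pre y d.2.2.length = d.2.2} ⟨(k, [], []), rfl, fun i hi => by simp at hi,
        fun _ _ _ _ _ _ => by simp [pre]⟩ ?_ ?_
    · rintro ⟨k', σ, u⟩ ⟨rfl, hgood, hu⟩
      obtain ⟨g, X, hg, hσ⟩ := exists_full σ.length (it σ) fun i hi => by
        obtain ⟨_, X, hX, -⟩ := hgood i hi
        exact ⟨X, hX⟩
      obtain ⟨y, hy, hyp⟩ := hk g X hg
      have huy := hu g X y hg hσ hy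
      dsimp only at huy hσ hy
      set q := interleave p (fun j => H k' j (g (ι j)) (X (ι j) (κ j))) with hq
      obtain ⟨n, hn1, hn2⟩ : ∃ n, σ.length ≤ n ∧ u.length < (ψ (pre q n)).length := by
        obtain ⟨n, hn⟩ := hy.2
          ((Finset.range σ.length).sup (fun i => (ψ (pre q i)).length) + u.length + 1)
        refine ⟨n, ?_, by omega⟩
        by_contra hlt
        have := Finset.le_sup (f := fun i => (ψ (pre q i)).length)
          (Finset.mem_range.2 (not_le.1 hlt))
        omega
      let σ' : List Item := List.ofFn (fun i : Fin n => g i)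
      have hlen : σ'.length = n := by simp [σ']
      have hσ' : ∀ i < σ'.length, g i = it σ' i := by
        intro i hi
        rw [hlen] at hi
        simp [it, σ', List.getD_eq_getElem?_getD, List.getElem?_ofFn, hi]
      have hval : Val p k' σ' (pre (fun j => H k' j (g (ι j)) (X (ι j) (κ j))) n) := by
        intro j hj
        rw [← hσ' _ (lt_of_le_of_lt (hι j) hj)]
        exact ⟨_, getD_pre (hlen ▸ hj), _, hg.1 _, rfl⟩
      refine ⟨(k', σ', ψ (pre q n)), ⟨rfl, ?_, ?_, hn2⟩, ?_, ?_, _, hval, ?_⟩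
      · rw [List.prefix_iff_eq_take]
        apply List.ext_getElem?
        intro i
        by_cases hi : i < σ.length
        · have h1 := hσ i hi
          have h2 : i < n := by omega
          simp only [it, List.getD_eq_getElem?_getD, List.getElem?_eq_getElem hi,
            Option.getD_some] at h1
          simp [List.getElem?_take, hi, σ', List.getElem?_ofFn, h2, h1]
        · simp [List.getElem?_take, hi]
      · dsimp only
        rw [hy.1 n]
        exact isPrefix_pre_of_eq huy hn2.le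
      · dsimp only
        rw [hy.1 n]
        exact (mem_body_iff (E := El p)).1 hyp _
      · intro i hi
        rw [← hσ' i hi]
        exact ⟨_, _, hg.1 i, rfl⟩
      · dsimp only
        rw [hout g X σ' _ hg hσ' hval, hlen]
    · rintro ⟨k', σ, u⟩ ⟨rfl, -, -⟩ ⟨k'', σ', u'⟩ ⟨⟨rfl, -⟩, -, hgood, w, hw, hu⟩
      refine ⟨rfl, hgood, fun g X y hg hσ hy => ?_⟩
      dsimp only at hu hw hσ ⊢
      rw [hout g X σ' w hg hσ hw] at hu
      rw [← hu]
      exact (hy.1 _).symm

/-- The column of a name of the list. -/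
def colList (j : ℕ) (c : Item) (m : ℕ) : ℕ :=
  if (Nat.unpair j).2 % 2 = 0 then c.2.isSome.toNat else m

/-- The entries of a name of a solution of `scList`. -/
def entSc (k j : ℕ) (c : Item) (m : ℕ) : ℕ := if j % 2 = 0 then colList (j / 2) c m else k

theorem solution_scList {E : List ℕ → Prop} {g : ℕ → Item} {X : ℕ → ℕ → ℕ} (h : Full E g X) :
    repScList (fun j => entSc (scCount (body E)) j (g (Nat.unpair (j / 2)).1)
        (X (Nat.unpair (j / 2)).1 ((Nat.unpair (j / 2)).2 / 2)))
      (fun i => ((g i).2.isSome, X i), scCount (body E)) ∧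
    (fun i => ((g i).2.isSome, X i), scCount (body E)) ∈ scList (body E) := by
  refine ⟨⟨fun i => ⟨?_, ?_⟩, ?_⟩, ?_, rfl⟩
  · simp [repBool, entSc, colList]
  · ext j
    have h1 : (2 * j + 1) % 2 = 1 := by omega
    have h2 : (2 * j + 1) / 2 = j := by omega
    simp [entSc, colList, h1, h2]
  · simp [repNat, entSc]
  · simp only [wScList, mem_ofPred_eq, scattered_body]
    ext x
    constructor
    · rintro ⟨s, hs⟩
      obtain ⟨i, hi⟩ := h.2.2 s x hs
      exact ⟨i, by simp [hi], ((h.1 i).2.2 s hi).unique hs⟩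
    · rintro ⟨i, hi, rfl⟩
      obtain ⟨s, hs⟩ := Option.isSome_iff_exists.1 hi
      exact ⟨s, (h.1 i).2.2 s hs⟩

theorem solution_kernel {E : List ℕ → Prop} {g : ℕ → Item} {X : ℕ → ℕ → ℕ} (h : Full E g X) :
    repClosed (fun i => Encodable.encode (g i).1) (CantorBendixson.perfectKernel (body E)) := by
  rw [perfectKernel_body]
  have : ∀ u : List ℕ, (∃ i, Encodable.encode (g i).1 = Encodable.encode u + 1) ↔
      ind (cbOp E) u := by
    intro u
    constructor
    · rintro ⟨i, hi⟩
      exact (h.1 i).1 u (Encodable.encode_injective (hi.trans (Encodable.encode_some u).symm))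
    · intro hu
      obtain ⟨i, hi⟩ := h.2.1 u hu
      exact ⟨i, by rw [hi]; rfl⟩
  simp only [repClosed, body, this]

theorem unpair_half_le (j : ℕ) : (Nat.unpair (j / 2)).1 ≤ j :=
  (Nat.unpair_left_le _).trans (Nat.div_le_self _ _)

theorem not_reduces_scList (φ ψ : List ℕ → List ℕ) :
    ¬ Reduces repClosed repBaire choiceBaire repClosed repScList scList φ ψ := by
  intro h
  refine key φ ψ (fun j => (Nat.unpair (j / 2)).1) (fun j => (Nat.unpair (j / 2)).2 / 2)
    unpair_half_le entSc fun p hp => ?_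
  obtain ⟨p', A, hφ, hA, -, hψ⟩ := h p (named p) rfl hp
  obtain rfl : A = body (listed φ p) := hA.trans (named_eq_body hφ)
  refine ⟨scCount (body (listed φ p)), fun g X hg => ?_⟩
  obtain ⟨r, y, h1, rfl, h3⟩ := hψ _ _ (solution_scList hg).1 (solution_scList hg).2
  exact ⟨r, h1, h3⟩

theorem not_reduces_cb (φ ψ : List ℕ → List ℕ) :
    ¬ Reduces repClosed repBaire choiceBaire repClosed (repProd repClosed repScList)
      cantorBendixson φ ψ := by
  intro h
  refine key φ ψ (fun j => if j % 2 = 0 then j / 2 else (Nat.unpair (j / 2 / 2)).1)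
    (fun j => (Nat.unpair (j / 2 / 2)).2 / 2) (fun j => ?_)
    (fun k j c m => if j % 2 = 0 then Encodable.encode c.1 else entSc k (j / 2) c m)
    fun p hp => ?_
  · split_ifs
    · exact Nat.div_le_self _ _
    · exact (unpair_half_le _).trans (Nat.div_le_self _ _)
  obtain ⟨p', A, hφ, hA, -, hψ⟩ := h p (named p) rfl hp
  obtain rfl : A = body (listed φ p) := hA.trans (named_eq_body hφ)
  refine ⟨scCount (body (listed φ p)), fun g X hg => ?_⟩
  refine (hψ _ (CantorBendixson.perfectKernel (body (listed φ p)),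
    (fun i => ((g i).2.isSome, X i), scCount (body (listed φ p)))) ⟨?_, ?_⟩
    ⟨rfl, (solution_scList hg).2⟩).elim fun r ⟨y, h1, h2, h3⟩ => ⟨r, h1, h2 ▸ h3⟩
  · convert solution_kernel hg using 2 with i
    simp
  · convert (solution_scList hg).1 using 2 with i
    have h1 : (2 * i + 1) % 2 = 1 := by omega
    have h2 : (2 * i + 1) / 2 = i := by omega
    simp [h1, h2]

end Pool.Agent.Lib.MP_88baa4_lc
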