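import Mathlib

/-!
Stage comparison for monotone inductive definitions, and coanalytic predicates on Baire space.
-/

namespace Pool.Agent.Lib.MP_88baa4_lc

open MeasureTheory Set

section Stage

variable {I : Type}

/-- The stages of an inductive definition. -/
noncomputable def stage (G : (I → Prop) → I → Prop) (a : Ordinal.{0}) : I → Prop :=
  G (fun z => ∃ b, ∃ _ : b < a, stage G b z)
termination_by a

theorem stage_eq (G : (I → Prop) → I → Prop) (a : Ordinal.{0}) :
    stage G a = G (fun z => ∃ b, b < a ∧ stage G b z) := by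
  rw [stage]
  congr 1
  ext z
  simp

/-- The inductively defined predicate. -/
def ind (G : (I → Prop) → I → Prop) (x : I) : Prop := ∃ a, stage G a x

/-- `x` enters, and not later than `y`. -/
def sle (G : (I → Prop) → I → Prop) (x y : I) : Prop :=
  ∃ a, stage G a x ∧ ∀ b, b < a → ¬ stage G b y

/-- `x` enters, and strictly earlier than `y`. -/
def slt (G : (I → Prop) → I → Prop) (x y : I) : Prop :=
  ∃ a, stage G a x ∧ ¬ stage G a y

variable {G : (I → Prop) → I → Prop}

theorem stage_mono (hG : Monotone G) {a b : Ordinal.{0}} (hab : a ≤ b) {x : I}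
    (h : stage G a x) : stage G b x := by
  rw [stage_eq] at h ⊢
  refine hG ?_ x h
  rintro z ⟨c, hc, hz⟩
  exact ⟨c, lt_of_lt_of_le hc hab, hz⟩

theorem exists_min_stage {x : I} (h : ind G x) :
    ∃ a, stage G a x ∧ ∀ b, b < a → ¬ stage G b x := by
  obtain ⟨a, ha, hmin⟩ := WellFounded.has_min (wellFounded_lt (α := Ordinal.{0}))
    {a | stage G a x} h
  exact ⟨a, ha, fun b hb hbx => hmin b hbx hb⟩

theorem ind_closed (hG : Monotone G) {x : I} (h : G (ind G) x) : ind G x := by
  classical
  let r : I → Ordinal.{0} := fun z => if hz : ind G z then hz.choose else 0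
  refine ⟨iSup (fun z => r z + 1), ?_⟩
  rw [stage_eq]
  refine hG ?_ x h
  intro z hz
  refine ⟨r z, ?_, ?_⟩
  · exact lt_of_lt_of_le (lt_add_one _) (Ordinal.le_iSup (fun z => r z + 1) z)
  · simp only [r, dif_pos hz]
    exact hz.choose_spec

theorem ind_fixed (hG : Monotone G) {x : I} (h : ind G x) : G (ind G) x := by
  obtain ⟨a, ha⟩ := h
  rw [stage_eq] at ha
  refine hG ?_ x ha
  rintro z ⟨b, -, hz⟩
  exact ⟨b, hz⟩

theorem sle.ind {x y : I} (h : sle G x y) : ind G x := by
  obtain ⟨a, ha, -⟩ := h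
  exact ⟨a, ha⟩

theorem sle_refl {x : I} (h : ind G x) : sle G x x := exists_min_stage h

theorem slt.sle (hG : Monotone G) {x y : I} (h : slt G x y) : sle G x y := by
  obtain ⟨a, ha, hy⟩ := h
  exact ⟨a, ha, fun b hb hby => hy (stage_mono hG hb.le hby)⟩

theorem not_slt_of_sle (hG : Monotone G) {x y : I} (h : sle G x y) : ¬ slt G y x := by
  rintro ⟨b, hb, hx⟩
  obtain ⟨a, ha, hy⟩ := h
  rcases lt_or_ge b a with hlt | hle
  · exact hy b hlt hb
  · exact hx (stage_mono hG hle ha)

theorem slt_of_not_sle (hG : Monotone G) {x y : I} (hx : ind G x) (h : ¬ sle G x y) :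
    slt G y x := by
  obtain ⟨a, ha, hmin⟩ := exists_min_stage hx
  have : ¬ ∀ b, b < a → ¬ stage G b y := fun h' => h ⟨a, ha, h'⟩
  push Not at this
  obtain ⟨b, hb, hy⟩ := this
  exact ⟨b, hy, hmin b hb⟩

theorem sle_of_not_slt (hG : Monotone G) {x y : I} (hx : ind G x) (h : ¬ slt G y x) :
    sle G x y := by
  by_contra h'
  exact h (slt_of_not_sle hG hx h')

/-- A nonempty family of elements of the inductive set has a member that enters first. -/
theorem exists_sle_min (hG : Monotone G) {J : Type} (e : J → I) (S : Set J)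
    (hS : ∃ j ∈ S, ind G (e j)) : ∃ j ∈ S, ∀ k ∈ S, sle G (e j) (e k) := by
  obtain ⟨j, hj, a, ha⟩ := hS
  obtain ⟨a, ⟨j, hj, ha⟩, hmin⟩ := WellFounded.has_min (wellFounded_lt (α := Ordinal.{0}))
    {a | ∃ j ∈ S, stage G a (e j)} ⟨a, j, hj, ha⟩
  exact ⟨j, hj, fun k hk => ⟨a, ha, fun b hb hbk => hmin b ⟨k, hk, hbk⟩ hb⟩⟩

/-- Induction along the stages. -/
theorem ind_induction {P : I → Prop}
    (h : ∀ x, G P x → P x) (hG : Monotone G) {x : I} (hx : ind G x) : P x := by
  obtain ⟨a, ha⟩ := hx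
  induction a using WellFoundedLT.induction generalizing x with
  | ind a ih =>
    rw [stage_eq] at ha
    refine h x (hG ?_ x ha)
    rintro z ⟨b, hb, hz⟩
    exact ih b hb hz

theorem sle_unfold (hG : Monotone G) {x y : I} (h : sle G x y) :
    G (fun z => slt G z y) x := by
  obtain ⟨a, ha, hy⟩ := h
  rw [stage_eq] at ha
  refine hG ?_ x ha
  rintro z ⟨b, hb, hz⟩
  exact ⟨b, hz, hy b hb⟩

/-- The pairs of relations closed under the stage comparison clauses. -/
def Closed2 (G : (I → Prop) → I → Prop) (R Q : I → I → Prop) : Prop :=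
  (∀ x y, G (fun z => Q z y) x → R x y) ∧
  (∀ x y, R x x → ¬ G (fun z => ¬ R x z) y → Q x y)

theorem closed2_self (hG : Monotone G) : Closed2 G (sle G) (slt G) := by
  constructor
  · intro x y h
    by_cases hy : ind G y
    · obtain ⟨b, hb, hmin⟩ := exists_min_stage hy
      refine ⟨b, ?_, hmin⟩
      rw [stage_eq]
      refine hG ?_ x h
      rintro z ⟨c, hc, hcy⟩
      refine ⟨c, ?_, hc⟩
      by_contra hcb
      exact hcy (stage_mono hG (not_lt.1 hcb) hb)
    · have hx : ind G x := ind_closed hG (hG (fun z ⟨c, hc, _⟩ => ⟨c, hc⟩) x h)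
      obtain ⟨a, ha⟩ := hx
      exact ⟨a, ha, fun b _ hb => hy ⟨b, hb⟩⟩
  · intro x y hx h
    obtain ⟨a, ha, hmin⟩ := hx
    refine ⟨a, ha, fun hy => h ?_⟩
    rw [stage_eq] at hy
    refine hG ?_ y hy
    rintro z ⟨b, hb, hz⟩ ⟨c, hc, hcz⟩
    rcases lt_or_ge b c with hlt | hle
    · exact hcz b hlt hz
    · exact hmin c (lt_of_le_of_lt hle hb) hc

theorem closed2_least (hG : Monotone G) {R Q : I → I → Prop} (h : Closed2 G R Q) (x : I) :
    (∀ y, sle G x y → R x y) ∧ (∀ y, slt G x y → Q x y) := by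
  by_cases hx : ind G x
  swap
  · exact ⟨fun y hy => (hx hy.ind).elim, fun y hy => (hx (hy.sle hG).ind).elim⟩
  obtain ⟨a, ha⟩ := hx
  induction a using WellFoundedLT.induction generalizing x with
  | ind a ih =>
    by_cases hlow : ∃ b, b < a ∧ stage G b x
    · obtain ⟨b, hb, hbx⟩ := hlow
      exact ih b hb x hbx
    have hmin : ∀ b, b < a → ¬ stage G b x := fun b hb hbx => hlow ⟨b, hb, hbx⟩
    have h1 : ∀ y, sle G x y → R x y := by
      rintro y ⟨c, hc, hcy⟩
      apply h.1
      have ha' := ha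
      rw [stage_eq] at ha'
      refine hG ?_ x ha'
      rintro z ⟨b, hb, hz⟩
      refine (ih b hb z hz).2 y ⟨b, hz, hcy b ?_⟩
      by_contra hcb
      exact hmin c (lt_of_le_of_lt (not_lt.1 hcb) hb) hc
    refine ⟨h1, ?_⟩
    rintro y ⟨c, hc, hcy⟩
    apply h.2 x y (h1 x ⟨a, ha, hmin⟩)
    intro hy
    apply hcy
    have hac : a ≤ c := by
      by_contra hca
      exact hmin c (not_le.1 hca) hc
    refine stage_mono hG hac ?_
    rw [stage_eq]
    refine hG ?_ y hy
    intro z hz
    by_contra hz'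
    exact hz (h1 z ⟨a, ha, fun b hb hbz => hz' ⟨b, hb, hbz⟩⟩)

end Stage

/-- A coanalytic predicate on Baire space. -/
def Coan (P : (ℕ → ℕ) → Prop) : Prop := AnalyticSet {p | ¬ P p}

theorem Coan.congr {P Q : (ℕ → ℕ) → Prop} (h : Coan P) (hPQ : ∀ p, P p ↔ Q p) : Coan Q := by
  have : P = Q := funext fun p => propext (hPQ p)
  exact this ▸ h

theorem Coan.of_measurable {P : (ℕ → ℕ) → Prop} (h : Measurable P) : Coan P :=
  (measurableSet_setOf.2 h.not).analyticSet

theorem Coan.const (b : Prop) : Coan (fun _ => b) := Coan.of_measurable measurable_const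

theorem Coan.forall {J : Type} [Countable J] {P : J → (ℕ → ℕ) → Prop} (h : ∀ j, Coan (P j)) :
    Coan (fun p => ∀ j, P j p) := by
  have := AnalyticSet.iUnion h
  unfold Coan
  convert this using 1
  ext p
  simp

theorem Coan.exists {J : Type} [Countable J] {P : J → (ℕ → ℕ) → Prop} (h : ∀ j, Coan (P j)) :
    Coan (fun p => ∃ j, P j p) := by
  cases isEmpty_or_nonempty J
  · exact (Coan.const False).congr (fun p => by simp)
  have := AnalyticSet.iInter h
  unfold Coan
  convert this using 1
  ext p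
  simp

theorem Coan.and {P Q : (ℕ → ℕ) → Prop} (hP : Coan P) (hQ : Coan Q) :
    Coan (fun p => P p ∧ Q p) := by
  have : Coan (fun p => ∀ b : Bool, (if b then P else Q) p) :=
    Coan.forall (P := fun b : Bool => if b then P else Q) (fun b => by cases b <;> simpa)
  exact this.congr (fun p => by simp [and_comm])

theorem Coan.or {P Q : (ℕ → ℕ) → Prop} (hP : Coan P) (hQ : Coan Q) :
    Coan (fun p => P p ∨ Q p) := by
  have : Coan (fun p => ∃ b : Bool, (if b then P else Q) p) :=
    Coan.exists (P := fun b : Bool => if b then P else Q) (fun b => by cases b <;> simpa)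
  exact this.congr (fun p => by simp [or_comm])

theorem Coan.imp_const {P : (ℕ → ℕ) → Prop} (b : Prop) (hP : Coan P) :
    Coan (fun p => b → P p) := by
  by_cases hb : b
  · exact hP.congr (fun p => by simp [hb])
  · exact (Coan.const True).congr (fun p => by simp [hb])

section StageCoan

variable {I : Type} [Countable I] {G : (ℕ → ℕ) → (I → Prop) → I → Prop}

theorem coan_of_closed2 (hm : ∀ x, Measurable (fun z : (ℕ → ℕ) × (I → Prop) => G z.1 z.2 x))
    {T : (I → I → Prop) × (I → I → Prop) → Prop} (hT : Measurable T) :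
    Coan (fun p => ∀ R Q, Closed2 (G p) R Q → T (R, Q)) := by
  have hS : MeasurableSet {z : (ℕ → ℕ) × ((I → I → Prop) × (I → I → Prop)) |
      Closed2 (G z.1) z.2.1 z.2.2 ∧ ¬ T z.2} := by
    rw [measurableSet_setOf]
    refine Measurable.and (Measurable.and ?_ ?_) (hT.comp measurable_snd).not
    · refine Measurable.forall fun x => Measurable.forall fun y => Measurable.imp ?_ (by fun_prop)
      exact (hm x).comp (f := fun z : (ℕ → ℕ) × ((I → I → Prop) × (I → I → Prop)) =>
        (z.1, fun w => z.2.2 w y)) (by fun_prop)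
    · refine Measurable.forall fun x => Measurable.forall fun y => Measurable.imp (by fun_prop)
        (Measurable.imp (Measurable.not ?_) (by fun_prop))
      refine (hm y).comp (f := fun z : (ℕ → ℕ) × ((I → I → Prop) × (I → I → Prop)) =>
        (z.1, fun w => ¬ z.2.1 x w)) ?_
      refine Measurable.prodMk measurable_fst (measurable_pi_lambda _ fun w => ?_)
      exact Measurable.not (by fun_prop)
  have := hS.analyticSet_image (f := Prod.fst) measurable_fst
  unfold Coan
  convert this using 1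
  ext p
  simp only [mem_setOf_eq, mem_image, Prod.exists]
  push Not
  constructor
  · rintro ⟨R, Q, h1, h2⟩
    exact ⟨p, R, Q, ⟨h1, h2⟩, rfl⟩
  · rintro ⟨_, R, Q, ⟨h1, h2⟩, rfl⟩
    exact ⟨R, Q, h1, h2⟩

theorem coan_sle (hG : ∀ p, Monotone (G p))
    (hm : ∀ x, Measurable (fun z : (ℕ → ℕ) × (I → Prop) => G z.1 z.2 x)) (x y : I) :
    Coan (fun p => sle (G p) x y) := by
  refine (coan_of_closed2 hm (T := fun w => w.1 x y) (by fun_prop)).congr fun p => ?_
  exact ⟨fun h => h _ _ (closed2_self (hG p)), fun h R Q hc => (closed2_least (hG p) hc x).1 y h⟩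

theorem coan_slt (hG : ∀ p, Monotone (G p))
    (hm : ∀ x, Measurable (fun z : (ℕ → ℕ) × (I → Prop) => G z.1 z.2 x)) (x y : I) :
    Coan (fun p => slt (G p) x y) := by
  refine (coan_of_closed2 hm (T := fun w => w.2 x y) (by fun_prop)).congr fun p => ?_
  exact ⟨fun h => h _ _ (closed2_self (hG p)), fun h R Q hc => (closed2_least (hG p) hc x).2 y h⟩

theorem coan_ind (hG : ∀ p, Monotone (G p))
    (hm : ∀ x, Measurable (fun z : (ℕ → ℕ) × (I → Prop) => G z.1 z.2 x)) (x : I) :
    Coan (fun p => ind (G p) x) :=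
  (coan_sle hG hm x x).congr fun _ => ⟨fun h => h.ind, sle_refl⟩

end StageCoan

end Pool.Agent.Lib.MP_88baa4_lc
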