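import Pool.Agent.Lib.MP_88baa4_lc.Defs
import Pool.Agent.Lib.MP_88baa4_lc.Stage

/-!
Words, number uniformisation for coanalytic relations, dependent choice, and the diagonal argument.
-/

namespace Pool.Agent.Lib.MP_88baa4_lc

open MeasureTheory Set Topology

@[simp] theorem length_pre (p : ℕ → ℕ) (n : ℕ) : (pre p n).length = n := by simp [pre]

theorem getElem?_pre (p : ℕ → ℕ) (n i : ℕ) :
    (pre p n)[i]? = if i < n then some (p i) else none := by
  simp only [pre, List.getElem?_ofFn]
  split_ifs <;> rfl

theorem pre_eq_iff {p q : ℕ → ℕ} {n : ℕ} : pre p n = pre q n ↔ ∀ i < n, p i = q i := by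
  constructor
  · intro h i hi
    have := congrArg (fun l => l[i]?) h
    simp only [getElem?_pre, if_pos hi] at this
    exact Option.some.inj this
  · intro h
    apply List.ext_getElem?
    intro i
    simp only [getElem?_pre]
    split_ifs with hi
    · rw [h i hi]
    · rfl

theorem pre_succ (p : ℕ → ℕ) (n : ℕ) : pre p (n + 1) = pre p n ++ [p n] := by
  simp only [pre, List.ofFn_succ_last]
  simp

theorem pre_isPrefix (p : ℕ → ℕ) {m n : ℕ} (h : m ≤ n) : pre p m <+: pre p n := by
  induction h with
  | refl => exact List.prefix_rfl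
  | step _ ih => rw [pre_succ]; exact ih.trans (List.prefix_append _ _)

theorem eq_pre_of_isPrefix {p : ℕ → ℕ} {n : ℕ} {u : List ℕ} (h : u <+: pre p n) :
    pre p u.length = u := by
  have hl : u.length ≤ n := by simpa using h.length_le
  exact ((List.prefix_of_prefix_length_le (pre_isPrefix p hl) h (by simp)).eq_of_length
    (by simp))

theorem isPrefix_pre_of_eq {p : ℕ → ℕ} {n : ℕ} {u : List ℕ} (h : pre p u.length = u)
    (hn : u.length ≤ n) : u <+: pre p n := by
  have := pre_isPrefix p hn
  rwa [h] at this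

theorem pre_of_isPrefix {p : ℕ → ℕ} {u v : List ℕ} (huv : u <+: v) (h : pre p v.length = v) :
    pre p u.length = u :=
  eq_pre_of_isPrefix (n := v.length) (by rwa [h])

theorem pre_getD (u : List ℕ) : pre (fun i => u.getD i 0) u.length = u := by
  apply List.ext_getElem?
  intro i
  simp only [getElem?_pre]
  split_ifs with hi
  · simp [List.getD_eq_getElem?_getD, List.getElem?_eq_getElem hi]
  · exact (List.getElem?_eq_none (not_lt.1 hi)).symm

theorem getD_pre {p : ℕ → ℕ} {n i : ℕ} (hi : i < n) : (pre p n).getD i 0 = p i := by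
  rw [List.getD_eq_getElem?_getD, getElem?_pre, if_pos hi]
  rfl

/-- A properly increasing sequence of words has a limit. -/
theorem exists_limit (c : ℕ → List ℕ) (h1 : ∀ n, c n <+: c (n + 1))
    (h2 : ∀ m, ∃ n, m ≤ (c n).length) : ∃ x : ℕ → ℕ, ∀ n, pre x (c n).length = c n := by
  have hmono : ∀ {m n}, m ≤ n → c m <+: c n := by
    intro m n h
    induction h with
    | refl => exact List.prefix_rfl
    | step _ ih => exact ih.trans (h1 _)
  choose N hN using h2
  refine ⟨fun i => (c (N (i + 1))).getD i 0, fun n => ?_⟩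
  apply List.ext_getElem?
  intro i
  simp only [getElem?_pre]
  split_ifs with hi
  · have hi' : i < (c (N (i + 1))).length := hN (i + 1)
    rcases le_total n (N (i + 1)) with h | h
    · obtain ⟨t, ht⟩ := hmono h
      rw [← ht]
      simp [List.getD_eq_getElem?_getD, List.getElem?_append_left hi, List.getElem?_eq_getElem hi]
    · obtain ⟨t, ht⟩ := hmono h
      rw [← ht]
      simp [List.getD_eq_getElem?_getD, List.getElem?_append_left hi',
        List.getElem?_eq_getElem hi']
  · exact (List.getElem?_eq_none (not_lt.1 hi)).symm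

theorem exists_limit_of_lt (c : ℕ → List ℕ) (h1 : ∀ n, c n <+: c (n + 1))
    (h2 : ∀ n, (c n).length < (c (n + 1)).length) :
    ∃ x : ℕ → ℕ, ∀ n, n ≤ (c n).length ∧ pre x (c n).length = c n := by
  have h3 : ∀ n, n ≤ (c n).length := by
    intro n
    induction n with
    | zero => exact Nat.zero_le _
    | succ n ih => exact lt_of_le_of_lt ih (h2 n)
  obtain ⟨x, hx⟩ := exists_limit c h1 (fun m => ⟨m, h3 m⟩)
  exact ⟨x, fun n => ⟨h3 n, hx n⟩⟩

theorem continuous_comp_pre {Y : Type} [TopologicalSpace Y] (h : List ℕ → Y) (n : ℕ) :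
    Continuous (fun p => h (pre p n)) :=
  (continuous_of_discreteTopology (f := fun v : Fin n → ℕ => h (List.ofFn v))).comp
    (continuous_pi fun i => continuous_apply (i : ℕ))

theorem measurable_comp_pre (h : List ℕ → Prop) (n : ℕ) : Measurable (fun p => h (pre p n)) :=
  (measurable_from_top (f := fun v : Fin n → ℕ => h (List.ofFn v))).mono
    (le_of_eq (DiscreteMeasurableSpace.forall_measurableSet |> fun h' =>
      top_unique (fun s _ => h' s)).symm) le_rfl |>.comp
    (measurable_pi_lambda _ fun i => measurable_pi_apply (i : ℕ))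

theorem isOpen_cyl (u : List ℕ) : IsOpen {x | pre x u.length = u} :=
  (continuous_comp_pre (Y := Prop) (fun w => w = u) u.length).isOpen_preimage {True}
    isOpen_singleton_true |> fun h => by convert h using 1; ext x; simp

theorem exists_cyl_subset {V : Set (ℕ → ℕ)} (hV : IsOpen V) {y : ℕ → ℕ} (hy : y ∈ V) :
    ∃ n, ∀ z, pre z n = pre y n → z ∈ V := by
  obtain ⟨s, u, hu, hsub⟩ := isOpen_pi_iff.1 hV y hy
  refine ⟨s.sup id + 1, fun z hz => hsub ?_⟩
  intro i hi
  have : i < s.sup id + 1 := Nat.lt_succ_of_le (Finset.le_sup (f := id) hi)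
  rw [pre_eq_iff.1 hz i this]
  exact (hu i hi).2

/-- Tree form of a coanalytic predicate. -/
theorem Coan.exists_tree {P : (ℕ → ℕ) → Prop} (h : Coan P) :
    ∃ T : (ℕ → ℕ) → List ℕ → Prop, (∀ s, Measurable (fun p => T p s)) ∧
      ∀ p, ¬ P p ↔ ∃ y, ∀ n, T p (pre y n) := by
  unfold Coan at h
  rw [AnalyticSet] at h
  rcases h with h | ⟨f, hf, hr⟩
  · refine ⟨fun _ _ => False, fun _ => measurable_const, fun p => ?_⟩
    have : p ∉ {p | ¬ P p} := by rw [h]; simp
    simpa using this
  · refine ⟨fun p s => p ∈ closure (f '' {z | pre z s.length = s}), fun s => ?_, fun p => ?_⟩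
    · exact measurable_mem.2 isClosed_closure.measurableSet
    · have : ¬ P p ↔ p ∈ range f := by rw [hr]; rfl
      rw [this]
      constructor
      · rintro ⟨y, rfl⟩
        exact ⟨y, fun n => subset_closure ⟨y, by simp, rfl⟩⟩
      · rintro ⟨y, hy⟩
        by_contra hne
        have hne' : p ≠ f y := fun h => hne ⟨y, h.symm⟩
        obtain ⟨U, V, hU, hV, hpU, hyV, hUV⟩ := t2_separation hne'
        obtain ⟨n, hn⟩ := exists_cyl_subset (hV.preimage hf) hyV
        obtain ⟨w, hwU, z, hz, rfl⟩ := mem_closure_iff.1 (hy n) U hU hpU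
        simp only [length_pre, mem_ofPred_eq] at hz
        exact Set.disjoint_left.1 hUV hwU (hn z hz)

/-- Number uniformisation for coanalytic relations. -/
theorem uniformize {D E : Type} [Countable D] [Countable E] {R : (ℕ → ℕ) → D → E → Prop}
    (hR : ∀ d e, Coan (fun p => R p d e)) :
    ∃ S : (ℕ → ℕ) → D → E → Prop, (∀ d e, Coan (fun p => S p d e)) ∧
      (∀ p d e, S p d e → R p d e) ∧ (∀ p d e e', S p d e → S p d e' → e = e') ∧
      ∀ p d, (∃ e, R p d e) → ∃ e, S p d e := by
  classical
  choose T hTm hT using fun d e => (hR d e).exists_tree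
  obtain ⟨c, hc⟩ := exists_injective_nat E
  let G : (ℕ → ℕ) → (D × E × List ℕ → Prop) → D × E × List ℕ → Prop :=
    fun p Y x => ¬ T x.1 x.2.1 p x.2.2 ∨ ∀ k, Y (x.1, x.2.1, x.2.2 ++ [k])
  have hG : ∀ p, Monotone (G p) := by
    intro p Y Y' hY x hx
    exact hx.imp id (fun h k => hY _ (h k))
  have hm : ∀ x, Measurable (fun z : (ℕ → ℕ) × (D × E × List ℕ → Prop) => G z.1 z.2 x) := by
    intro x
    exact Measurable.or ((hTm _ _ _).comp measurable_fst).not
      (Measurable.forall fun k => by fun_prop)
  have hind : ∀ p d e, ind (G p) (d, e, []) ↔ R p d e := by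
    intro p d e
    constructor
    · intro h
      by_contra hn
      obtain ⟨y, hy⟩ := (hT d e p).1 hn
      have := ind_induction (P := fun x => x.1 = d → x.2.1 = e → pre y x.2.2.length ≠ x.2.2)
        (G := G p) ?_ (hG p) h
      · exact this rfl rfl (by simp [pre])
      · rintro ⟨d', e', s⟩ hx rfl rfl hs
        rcases hx with hx | hx
        · exact hx (by have := hy s.length; rwa [hs] at this)
        · apply hx (y s.length) rfl rfl
          simp only [List.length_append, List.length_singleton, pre_succ]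
          rw [hs]
    · intro h
      by_contra hn
      have step : ∀ s, ¬ ind (G p) (d, e, s) →
          T d e p s ∧ ∃ k, ¬ ind (G p) (d, e, s ++ [k]) := by
        intro s hs
        have : ¬ G p (ind (G p)) (d, e, s) := fun h' => hs (ind_closed (hG p) h')
        simp only [G, not_or, not_not, not_forall] at this
        exact this
      choose! hT' k hk using step
      let w : ℕ → List ℕ := fun n => Nat.rec [] (fun _ s => s ++ [k s]) n
      have hw : ∀ n, ¬ ind (G p) (d, e, w n) := by
        intro n
        induction n with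
        | zero => exact hn
        | succ n ih => exact hk _ ih
      have hlen : ∀ n, (w n).length = n := by
        intro n
        induction n with
        | zero => rfl
        | succ n ih => simp [w] at ih ⊢; exact ih
      obtain ⟨y, hy⟩ := exists_limit w (fun n => List.prefix_append _ _)
        (fun m => ⟨m, (hlen m).ge⟩)
      refine ((hT d e p).2 ⟨y, fun n => ?_⟩) h
      have := hy n
      rw [hlen] at this
      rw [this]
      exact hT' _ (hw n)
  refine ⟨fun p d e => ∀ e', sle (G p) (d, e, []) (d, e', []) ∧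
    (c e' < c e → slt (G p) (d, e, []) (d, e', [])), ?_, ?_, ?_, ?_⟩
  · intro d e
    exact Coan.forall fun e' => (coan_sle hG hm _ _).and ((coan_slt hG hm _ _).imp_const _)
  · intro p d e h
    exact (hind p d e).1 (h e).1.ind
  · intro p d e e' h h'
    rcases lt_trichotomy (c e) (c e') with hlt | heq | hlt
    · exact (not_slt_of_sle (hG p) (h e').1 ((h' e).2 hlt)).elim
    · exact hc heq
    · exact (not_slt_of_sle (hG p) (h' e).1 ((h e').2 hlt)).elim
  · rintro p d ⟨e, he⟩
    obtain ⟨e1, -, h1⟩ := exists_sle_min (hG p) (fun e => (d, e, ([] : List ℕ))) univ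
      ⟨e, trivial, (hind p d e).2 he⟩
    have hex : ∃ n, ∃ e, c e = n ∧ ∀ e', sle (G p) (d, e, []) (d, e', []) :=
      ⟨_, e1, rfl, fun e' => h1 e' trivial⟩
    obtain ⟨e2, he2, h2⟩ := Nat.find_spec hex
    refine ⟨e2, fun e' => ⟨h2 e', fun hlt => ?_⟩⟩
    have hmin := Nat.find_min hex (m := c e') (he2 ▸ hlt)
    by_contra hns
    apply hmin
    refine ⟨e', rfl, fun e'' => ?_⟩
    by_cases hi : ind (G p) (d, e', [])
    · obtain ⟨a, ha, hb⟩ := sle_of_not_slt (hG p) hi hns
      obtain ⟨a2, ha2, hb2⟩ := h2 e''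
      refine ⟨a, ha, fun b hba => hb2 b ?_⟩
      by_contra hle
      exact hb a2 (lt_of_le_of_lt (not_lt.1 hle) hba) ha2
    · obtain ⟨a, ha⟩ := (h2 e').ind
      exact (hns ⟨a, ha, fun h => hi ⟨a, h⟩⟩).elim

/-- Dependent choice for a coanalytic relation on a countable set. -/
theorem coan_dc {D : Type} [Countable D] {R : (ℕ → ℕ) → D → D → Prop}
    (hR : ∀ d e, Coan (fun p => R p d e)) :
    ∃ P : (ℕ → ℕ) → Prop, Coan P ∧
      (∀ p, P p → ∃ c : ℕ → D, ∀ n, R p (c n) (c (n + 1))) ∧
      ∀ p (J : Set D), J.Nonempty → (∀ d ∈ J, ∃ e, R p d e) →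
        (∀ d ∈ J, ∀ e, R p d e → e ∈ J) → P p := by
  obtain ⟨S, hS, hSR, hfun, htot⟩ := uniformize hR
  let C : ℕ → D → (ℕ → ℕ) → Prop :=
    fun n => Nat.rec (fun _ _ => True) (fun _ C d p => ∃ e, S p d e ∧ C e p) n
  have hC : ∀ n d, Coan (C n d) := by
    intro n
    induction n with
    | zero => exact fun d => Coan.const True
    | succ n ih => exact fun d => Coan.exists fun e => (hS d e).and (ih e)
  refine ⟨fun p => ∃ d, ∀ n, C n d p, Coan.exists fun d => Coan.forall fun n => hC n d, ?_, ?_⟩
  · rintro p ⟨d, hd⟩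
    have step : ∀ d, (∀ n, C n d p) → ∃ e, S p d e ∧ ∀ n, C n e p := by
      intro d hd
      obtain ⟨e, he, -⟩ := hd 1
      refine ⟨e, he, fun n => ?_⟩
      obtain ⟨e', he', hc⟩ := hd (n + 1)
      rwa [hfun p d e e' he he']
    choose! f hf1 hf2 using step
    have hall : ∀ n, ∀ m, C m (f^[n] d) p := by
      intro n
      induction n with
      | zero => exact hd
      | succ n ih => rw [Function.iterate_succ_apply']; exact hf2 _ ih
    refine ⟨fun n => f^[n] d, fun n => hSR _ _ _ ?_⟩
    simp only [Function.iterate_succ_apply']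
    exact hf1 _ (hall n)
  · rintro p J ⟨d, hd⟩ h1 h2
    refine ⟨d, fun n => ?_⟩
    induction n generalizing d with
    | zero => trivial
    | succ n ih =>
      obtain ⟨e, he⟩ := htot p d (h1 d hd)
      exact ⟨e, he, ih e (h2 d hd e (hSR _ _ _ he))⟩

/-- The closed set named by `p`. -/
def named (p : ℕ → ℕ) : Set (ℕ → ℕ) :=
  {x | ∀ u : List ℕ, (∃ i, p i = Encodable.encode u + 1) → pre x u.length ≠ u}

theorem exists_name {A : Set (ℕ → ℕ)} (hA : IsClosed A) : ∃ p, named p = A := by
  classical
  refine ⟨fun i => if ∃ u : List ℕ, Encodable.encode u = i ∧ ∀ x ∈ A, pre x u.length ≠ u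
    then i + 1 else 0, ?_⟩
  ext x
  constructor
  · intro hx
    by_contra hxA
    obtain ⟨n, hn⟩ := exists_cyl_subset hA.isOpen_compl hxA
    refine hx (pre x n) ⟨Encodable.encode (pre x n), ?_⟩ (by simp)
    dsimp only
    rw [if_pos]
    refine ⟨_, rfl, fun z hz h => hn z ?_ hz⟩
    simpa using h
  · rintro hx u ⟨i, hi⟩
    dsimp only at hi
    split_ifs at hi with h
    obtain ⟨v, hv, hv'⟩ := h
    have : v = u := Encodable.encode_injective (by omega)
    exact this ▸ hv' x hx

theorem pre_pair_congr {p q p' q' : ℕ → ℕ} {n m : ℕ} (hm : m ≤ n) (hp : pre p n = pre p' n)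
    (hq : pre q n = pre q' n) : pre (interleave p q) m = pre (interleave p' q') m := by
  rw [pre_eq_iff] at *
  intro i hi
  simp only [interleave]
  rw [hp (i / 2) (by omega), hq (i / 2) (by omega)]

/-- The names of nonempty closed sets do not form a coanalytic set. -/
theorem not_coan_nonempty : ¬ Coan (fun p => (named p).Nonempty) := by
  classical
  intro h
  let cond : ℕ → List ℕ → List ℕ → Prop := fun i t w =>
    ∃ u : List ℕ, w.getD i 0 = Encodable.encode u + 1 ∧ u.length ≤ t.length ∧
      pre (interleave (fun j => w.getD j 0) (fun j => t.getD j 0)) u.length = u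
  let dec : ℕ → ℕ × List ℕ := fun n => (Encodable.decode (α := ℕ × List ℕ) n).getD (0, [])
  let F : (ℕ → ℕ) → ℕ → ℕ := fun x n =>
    if cond (dec n).1 (dec n).2 (pre x ((dec n).1 + (dec n).2.length + 1))
    then Encodable.encode (dec n).2 + 1 else 0
  have hF : Continuous F := continuous_pi fun n =>
    continuous_comp_pre (fun w => if cond (dec n).1 (dec n).2 w
      then Encodable.encode (dec n).2 + 1 else 0) _
  have hcond : ∀ x y i t, pre y t.length = t → (cond i t (pre x (i + t.length + 1)) ↔
      ∃ u : List ℕ, x i = Encodable.encode u + 1 ∧ u.length ≤ t.length ∧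
        pre (interleave x y) u.length = u) := by
    intro x y i t ht
    refine exists_congr fun u => ?_
    rw [getD_pre (by omega)]
    refine and_congr_right fun _ => and_congr_right fun hu => ?_
    rw [pre_pair_congr (p' := x) (q' := y) hu]
    · rw [pre_eq_iff]
      intro j hj
      exact getD_pre (by omega)
    · rw [pre_getD, ht]
  have hFn : ∀ x y, y ∈ named (F x) ↔ interleave x y ∈ named x := by
    intro x y
    constructor
    · rintro hy u ⟨i, hi⟩ hu
      refine hy (pre y u.length) ⟨Encodable.encode (i, pre y u.length), ?_⟩ (by simp)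
      have hd : dec (Encodable.encode (i, pre y u.length)) = (i, pre y u.length) := by
        simp only [dec, Encodable.encodek, Option.getD_some]
      simp only [F, hd]
      rw [if_pos]
      exact (hcond x y i _ (by simp)).2 ⟨u, hi, by simp, hu⟩
    · rintro hxy t ⟨n, hn⟩ ht
      simp only [F] at hn
      split_ifs at hn with hc
      have : (dec n).2 = t := Encodable.encode_injective (by omega)
      rw [this] at hc
      obtain ⟨u, hu1, -, hu3⟩ := (hcond x y _ t ht).1 hc
      exact hxy u ⟨_, hu1⟩ hu3
  have hD : AnalyticSet {x | ¬ ∃ y, interleave x y ∈ named x} := by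
    have := AnalyticSet.preimage h hF
    convert this using 1
    ext x
    simp only [mem_ofPred_eq, mem_preimage, Set.Nonempty, hFn]
  have hpair : ∀ x y : ℕ → ℕ, (fun i => interleave x y (2 * i)) = x ∧
      (fun i => interleave x y (2 * i + 1)) = y := by
    intro x y
    constructor
    · ext i; simp [interleave]
    · ext i
      have h1 : (2 * i + 1) % 2 = 1 := by omega
      have h2 : (2 * i + 1) / 2 = i := by omega
      simp [interleave, h1, h2]
  rw [AnalyticSet] at hD
  rcases hD with hD | ⟨f, hf, hr⟩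
  · obtain ⟨c, hc⟩ := exists_name (A := ∅) isClosed_empty
    have : c ∈ {x | ¬ ∃ y, interleave x y ∈ named x} := by simp [hc]
    rw [hD] at this
    exact this
  · have hcl : IsClosed {z : ℕ → ℕ | f (fun i => z (2 * i + 1)) = fun i => z (2 * i)} :=
      isClosed_eq (hf.comp (by fun_prop)) (by fun_prop)
    obtain ⟨c, hc⟩ := exists_name hcl
    have key : c ∈ range f ↔ ¬ ∃ y, interleave c y ∈ named c := by rw [hr]; rfl
    simp only [hc, mem_ofPred_eq, hpair] at key
    exact iff_not_self key

end Pool.Agent.Lib.MP_88baa4_lc
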